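import Pool.Agent.helper64.TP.SpecG1
import Pool.Agent.helper64.TP.SpecC

/-!
# Project sp/tp, module GSC: squares are crossed with positive probability
-/

namespace TP

open DP

theorem GSC (hRSW : RSW_stmt) : GSC_stmt := by
  obtain ⟨c, hc, L, hL, h⟩ := hRSW
  refine ⟨c, hc, L.toNat, fun n hn => ?_⟩
  have hn' : L ≤ (n : ℤ) := by
    have := Int.self_le_toNat L
    omega
  exact (h true (-(n : ℤ)) n (-(n : ℤ)) n (by omega) (by omega)).1 (by omega) (by omega)

end TP

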